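import Pool.Agent.H8.ZA.Targets
import Pool.Agent.H12.ZD.Good

/-!
# Module FRO: an open set of points whose orbits avoid a given surface
-/

open MvPolynomial IsLocalRing
open Pool.Agent.H12.ZD (pmap v O Res res_cast res_finite_order residue_surjective residue_eq
  residue_ne_zero residue_eq_zero mem_O pmap_map pmap_iterate_map exists_bound_lift
  exists_bound_system v_add_le')

namespace Pool.Agent.H50.ZA

open Pool.Agent.H8.ZA

theorem charP_res (p : Nat.Primes) : CharP (Res p) (p : ℕ) := by
  have h : (p : ℕ).Prime := p.2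
  exact (CharP.charP_iff_prime_eq_zero h).mpr (res_cast p)

instance instExpRes (p : Nat.Primes) : CharP (Res p) (p : ℕ) := charP_res p

theorem frob_inj (p : Nat.Primes) (t : ℕ) {a b : Res p} (h : a ^ ((p : ℕ) ^ t) = b ^ ((p : ℕ) ^ t)) :
    a = b := by
  have : ExpChar (Res p) (p : ℕ) := ExpChar.prime p.2
  exact iterateFrobenius_inj (Res p) (p : ℕ) t h

theorem exists_frob (p : Nat.Primes) (c : Res p) : ∃ t : ℕ, 1 ≤ t ∧ c ^ ((p : ℕ) ^ t) = c := by
  classical
  by_cases hc : c = 0
  · exact ⟨1, le_rfl, by rw [hc, pow_one, zero_pow p.2.ne_zero]⟩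
  obtain ⟨n, hn, h1⟩ := res_finite_order p c hc
  have hfin : (Set.range fun i : ℕ => c ^ ((p : ℕ) ^ i)).Finite := by
    refine ((Finset.range n).image fun m => c ^ m).finite_toSet.subset ?_
    rintro _ ⟨i, rfl⟩
    simp only [Finset.coe_image, Set.mem_image, Finset.coe_range, Set.mem_Iio]
    refine ⟨(p : ℕ) ^ i % n, Nat.mod_lt _ (by omega), ?_⟩
    conv_rhs => rw [← Nat.div_add_mod ((p : ℕ) ^ i) n]
    rw [pow_add, pow_mul, h1, one_pow, one_mul]
  have hni : ¬ Function.Injective fun i : ℕ => c ^ ((p : ℕ) ^ i) := fun hinj =>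
    Set.infinite_range_of_injective hinj hfin
  simp only [Function.Injective, not_forall] at hni
  obtain ⟨i, j, hij, hne⟩ := hni
  have key : ∀ i j : ℕ, i < j → c ^ ((p : ℕ) ^ i) = c ^ ((p : ℕ) ^ j) →
      ∃ t : ℕ, 1 ≤ t ∧ c ^ ((p : ℕ) ^ t) = c := by
    intro i j hlt h
    refine ⟨j - i, by omega, ?_⟩
    apply frob_inj p i
    rw [← pow_mul, ← pow_add, Nat.sub_add_cancel hlt.le]
    exact h.symm
  rcases lt_or_gt_of_ne hne with h | h
  · exact key i j h hij
  · exact key j i h hij.symm

theorem frob_mul (p : Nat.Primes) {c : Res p} {t : ℕ} (h : c ^ ((p : ℕ) ^ t) = c) (k : ℕ) :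
    c ^ ((p : ℕ) ^ (t * k)) = c := by
  induction k with
  | zero => rw [mul_zero, pow_zero, pow_one]
  | succ k ih => rw [Nat.mul_succ, pow_add, pow_mul, ih, h]

theorem exists_frob_finset (p : Nat.Primes) (S : Finset (Res p)) :
    ∃ t : ℕ, 1 ≤ t ∧ ∀ c ∈ S, c ^ ((p : ℕ) ^ t) = c := by
  classical
  induction S using Finset.induction_on with
  | empty => exact ⟨1, le_rfl, by simp⟩
  | insert a S ha ih =>
    obtain ⟨t, ht, h⟩ := ih
    obtain ⟨s, hs, h'⟩ := exists_frob p a
    refine ⟨t * s, Nat.mul_pos ht hs, ?_⟩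
    intro c hc
    rcases Finset.mem_insert.mp hc with rfl | hc
    · rw [mul_comm]
      exact frob_mul p h' t
    · exact frob_mul p (h c hc) s

theorem map_frob_eq {p : Nat.Primes} {σ : Type} (φ : Res p →+* Res p) (q : MvPolynomial σ (Res p))
    (h : ∀ c ∈ q.coeffs, φ c = c) : map φ q = q := by
  ext m
  rw [coeff_map]
  by_cases hm : coeff m q = 0
  · rw [hm, map_zero]
  · exact h _ (coeff_mem_coeffs m hm)

theorem inv_map {R S : Type} [CommRing R] [CommRing S] (φ : R →+* S) {f f' : Tup R}
    (h : Inv f f') : Inv (fun i => map φ (f i)) (fun i => map φ (f' i)) := by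
  have key : ∀ g g' : Tup R, comp (fun i => map φ (g i)) (fun i => map φ (g' i)) =
      fun i => map φ (comp g g' i) := by
    intro g g'
    funext i
    change aeval (fun i => map φ (g' i)) (map φ (g i)) = map φ (aeval g' (g i))
    rw [aeval_def, eval₂_map, aeval_def]
    rw [show map φ (eval₂ (algebraMap R (MvPolynomial (Fin 3) R)) g' (g i)) =
      eval₂ ((map φ).comp (algebraMap R (MvPolynomial (Fin 3) R))) ((map φ) ∘ g') (g i) from
        eval₂_comp_left _ _ _ _]
    congr 1
    ext r
    simp
  constructor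
  · rw [key, h.left]
    funext i
    exact map_X φ i
  · rw [key, h.right]
    funext i
    exact map_X φ i

theorem inv_of_map {R S : Type} [CommRing R] [CommRing S] (φ : R →+* S)
    (hφ : Function.Injective φ) {f f' : Tup R}
    (h : Inv (fun i => map φ (f i)) (fun i => map φ (f' i))) : Inv f f' := by
  have key : ∀ g g' : Tup R, comp (fun i => map φ (g i)) (fun i => map φ (g' i)) =
      fun i => map φ (comp g g' i) := by
    intro g g'
    funext i
    change aeval (fun i => map φ (g' i)) (map φ (g i)) = map φ (aeval g' (g i))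
    rw [aeval_def, eval₂_map, aeval_def]
    rw [show map φ (eval₂ (algebraMap R (MvPolynomial (Fin 3) R)) g' (g i)) =
      eval₂ ((map φ).comp (algebraMap R (MvPolynomial (Fin 3) R))) ((map φ) ∘ g') (g i) from
        eval₂_comp_left _ _ _ _]
    congr 1
    ext r
    simp
  constructor
  · funext i
    apply map_injective φ hφ
    have := congrFun h.left i
    rw [key] at this
    rw [map_X]
    exact this
  · funext i
    apply map_injective φ hφ
    have := congrFun h.right i
    rw [key] at this
    rw [map_X]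
    exact this

theorem eval_map_comp {R S : Type} [CommRing R] [CommRing S] (φ : R →+* S) (q : Po R)
    (z : Fin 3 → R) : eval (fun i => φ (z i)) (map φ q) = φ (eval z q) := by
  rw [eval_map, eval₂_comp]
  rfl

theorem pf_FRO (hFRX : T_FRX) : T_FRO := by
  classical
  intro f f' b hinv hb
  obtain ⟨M₁, h₁⟩ := exists_bound_system f
  obtain ⟨M₂, h₂⟩ := exists_bound_system f'
  obtain ⟨M₃, h₃⟩ := exists_bound_lift b
  obtain ⟨p', hp'M, hp'⟩ := Nat.exists_infinite_primes (max M₁ (max M₂ M₃) + 1)
  let p : Nat.Primes := ⟨p', hp'⟩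
  have hpM : max M₁ (max M₂ M₃) < (p : ℕ) := hp'M
  obtain ⟨f₀, hf₀⟩ := h₁ p (lt_of_le_of_lt (le_max_left _ _) hpM)
  obtain ⟨f₁, hf₁⟩ := h₂ p (lt_of_le_of_lt ((le_max_left _ _).trans (le_max_right _ _)) hpM)
  obtain ⟨b₀, hb₀, hb₀'⟩ :=
    h₃ p (lt_of_le_of_lt ((le_max_right _ _).trans (le_max_right _ _)) hpM)
  have hinv₀ : Inv f₀ f₁ := by
    apply inv_of_map (O p).subtype (O p).subtype_injective
    rw [hf₀, hf₁]
    exact hinv
  have hinvR : Inv (fun i => map (residue (O p)) (f₀ i)) (fun i => map (residue (O p)) (f₁ i)) :=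
    inv_map (residue (O p)) hinv₀
  set F : Tup (Res p) := fun i => map (residue (O p)) (f₀ i) with hF
  set F' : Tup (Res p) := fun i => map (residue (O p)) (f₁ i) with hF'
  set B : Po (Res p) := map (residue (O p)) b₀ with hB
  have hB0 : B ≠ 0 := hb₀' hb
  -- the Frobenius power
  obtain ⟨t₀, ht₀, hS⟩ := exists_frob_finset p
    ((Finset.univ.biUnion fun i => (F i).coeffs) ∪ B.coeffs)
  set K : ℕ := deg F + B.totalDegree + 1 with hK
  set t : ℕ := t₀ * K with ht
  have hSt : ∀ c ∈ (Finset.univ.biUnion fun i => (F i).coeffs) ∪ B.coeffs,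
      c ^ ((p : ℕ) ^ t) = c := fun c hc => frob_mul p (hS c hc) K
  have htK : K ≤ t := by
    rw [ht]
    exact Nat.le_mul_of_pos_left K ht₀
  have hQ : t < (p : ℕ) ^ t := Nat.lt_pow_self p.2.one_lt
  have hexp : ExpChar (Res p) (p : ℕ) := ExpChar.prime p.2
  let φ : Res p →+* Res p := iterateFrobenius (Res p) (p : ℕ) t
  have hφ : ∀ y, φ y = y ^ ((p : ℕ) ^ t) := fun y => rfl
  obtain ⟨x, hx, hxb⟩ := hFRX (Res p) F F' ((p : ℕ) ^ t) B hinvR
    (by omega) (by
      rw [Nat.cast_pow, res_cast, zero_pow]
      omega) (by omega) (by omega) hB0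
  have hFφ : (fun i => map φ (F i)) = F := by
    funext i
    apply map_frob_eq
    intro c hc
    rw [hφ]
    apply hSt
    apply Finset.mem_union_left
    exact Finset.mem_biUnion.mpr ⟨i, Finset.mem_univ i, hc⟩
  have hBφ : map φ B = B := by
    apply map_frob_eq
    intro c hc
    rw [hφ]
    exact hSt c (Finset.mem_union_right _ hc)
  have hFx : pmap F x = fun i => φ (x i) := by
    funext i
    rw [hφ]
    exact hx i
  have hcomm : ∀ n (z : Fin 3 → Res p), (pmap F)^[n] (fun i => φ (z i)) =
      fun i => φ ((pmap F)^[n] z i) := by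
    intro n z
    have := pmap_iterate_map φ F z n
    rwa [hFφ] at this
  have hiter : ∀ n, (pmap F)^[n] x = fun i => φ^[n] (x i) := by
    intro n
    induction n with
    | zero => rfl
    | succ n ih =>
      rw [Function.iterate_succ_apply, hFx, hcomm, ih]
      funext i
      rw [Function.iterate_succ_apply']
  have hφinj : Function.Injective φ := φ.injective
  have hBn : ∀ n (z : Fin 3 → Res p), eval (fun i => φ^[n] (z i)) B = φ^[n] (eval z B) := by
    intro n
    induction n with
    | zero => intro z; rfl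
    | succ n ih =>
      intro z
      have h1 : (fun i => φ^[n + 1] (z i)) = fun i => φ^[n] (φ (z i)) := by
        funext i
        rw [Function.iterate_succ_apply]
      rw [h1, ih, Function.iterate_succ_apply]
      congr 1
      conv_lhs => rw [← hBφ]
      exact eval_map_comp φ B z
  have hgood : ∀ n, eval ((pmap F)^[n] x) B ≠ 0 := by
    intro n
    rw [hiter, hBn]
    intro h0
    apply hxb
    apply hφinj.iterate n
    rw [h0]
    exact (iterate_map_zero φ n).symm
  -- periodicity
  obtain ⟨m, hm, hxm⟩ := exists_frob_finset p (Finset.univ.image x)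
  have hφn : ∀ n y, φ^[n] y = y ^ ((p : ℕ) ^ (t * n)) := by
    intro n y
    induction n with
    | zero => rw [mul_zero, pow_zero, pow_one]; rfl
    | succ n ih => rw [Function.iterate_succ_apply', ih, hφ, ← pow_mul, ← pow_add, Nat.mul_succ]
  have hper : (pmap F)^[m] x = x := by
    rw [hiter]
    funext i
    rw [hφn, mul_comm]
    exact frob_mul p (hxm (x i) (Finset.mem_image_of_mem x (Finset.mem_univ i))) t
  have hinvn : ∀ n (z : Fin 3 → Res p), (pmap F')^[n] ((pmap F)^[n] z) = z := by
    intro n z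
    have h : Function.LeftInverse (pmap F') (pmap F) := fun z => hinvR.pmap_right z
    exact h.iterate n z
  have hgood' : ∀ n, eval ((pmap F')^[n] x) B ≠ 0 := by
    intro n
    have h1 : (pmap F)^[m * n] x = x := by
      rw [Function.iterate_mul]
      exact Function.iterate_fixed hper n
    have h2 : (pmap F)^[n] ((pmap F)^[m * n - n] x) = x := by
      rw [← Function.iterate_add_apply]
      have : n + (m * n - n) = m * n := by
        have : n ≤ m * n := Nat.le_mul_of_pos_left n hm
        omega
      rw [this, h1]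
    have h3 : (pmap F')^[n] x = (pmap F)^[m * n - n] x := by
      conv_lhs => rw [← h2]
      exact hinvn n _
    rw [h3]
    exact hgood _
  -- the lift
  choose z hz using fun i => residue_surjective p (x i)
  refine ⟨p, fun i => (z i : Qb), ?_⟩
  intro y hy n
  have hyO : ∀ i, y i ∈ O p := by
    intro i
    rw [mem_O]
    have h1 : y i = (y i - (z i : Qb)) + (z i : Qb) := by ring
    rw [h1]
    exact v_add_le' p (hy i).le (z i).2
  let y₀ : Fin 3 → O p := fun i => ⟨y i, hyO i⟩
  have hy₀ : (fun i => (O p).subtype (y₀ i)) = y := rfl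
  have hyres : (fun i => residue (O p) (y₀ i)) = x := by
    funext i
    rw [← hz i, residue_eq]
    exact hy i
  have key : ∀ (g₀ : Tup (O p)) (g : Tup Qb), (fun i => map (O p).subtype (g₀ i)) = g →
      eval ((pmap fun i => map (residue (O p)) (g₀ i))^[n] x) B ≠ 0 →
      eval ((pmap g)^[n] y) b ≠ 0 := by
    intro g₀ g hg hne h0
    apply hne
    have h1 := pmap_iterate_map (O p).subtype g₀ y₀ n
    rw [hg, hy₀] at h1
    have h2 := pmap_iterate_map (residue (O p)) g₀ y₀ n
    rw [hyres] at h2
    rw [h2, hB, eval_map_comp]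
    have h3 : eval ((pmap g₀)^[n] y₀) b₀ = 0 := by
      apply (O p).subtype_injective
      rw [← eval_map_comp, hb₀, ← h1, h0, map_zero]
    rw [h3, map_zero]
  exact ⟨key f₀ f hf₀ (hgood n), key f₁ f' hf₁ (hgood' n)⟩

end Pool.Agent.H50.ZA
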