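import Pool.Agent.H8.ZA.Targets
import Pool.Agent.H12.ZD.Good

/-!
# Module PFX: absolute values with the product formula
-/

open Pool.Agent.H12.ZD (v)

namespace Pool.Agent.H50.ZA

open Pool.Agent.H8.ZA

/-! ## The rational product formula -/

theorem log_norm_natCast (p : Nat.Primes) {n : ℕ} (hn : n ≠ 0) :
    Real.log ‖((n : ℕ) : ℚ_[(p : ℕ)])‖ = -((n.factorization p : ℕ) * Real.log (p : ℕ)) := by
  have h1 : ((n : ℕ) : ℚ_[(p : ℕ)]) = ((n : ℚ) : ℚ_[(p : ℕ)]) := by push_cast; rfl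
  rw [h1, Padic.eq_padicNorm, padicNorm.eq_zpow_of_nonzero (by exact_mod_cast hn),
    padicValRat.of_nat, Nat.factorization_def n p.2, Rat.cast_zpow, Real.log_zpow,
    Rat.cast_natCast, Int.cast_neg, Int.cast_natCast, neg_mul]

theorem nat_formula {n : ℕ} (hn : n ≠ 0) (T : Finset Nat.Primes)
    (hT : ∀ p : Nat.Primes, (p : ℕ) ∣ n → p ∈ T) :
    Real.log n + ∑ p ∈ T, Real.log ‖((n : ℕ) : ℚ_[(p : ℕ)])‖ = 0 := by
  classical
  rw [Finset.sum_congr rfl fun p _ => log_norm_natCast p hn, Finset.sum_neg_distrib,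
    Real.log_nat_eq_sum_factorization]
  have h : n.factorization.sum (fun p t => (t : ℝ) * Real.log p) =
      ∑ p ∈ T.map ⟨fun q : Nat.Primes => (q : ℕ), Subtype.val_injective⟩,
        (n.factorization p : ℝ) * Real.log p := by
    apply Finsupp.sum_of_support_subset
    · intro q hq
      rw [Nat.support_factorization, Nat.mem_primeFactors] at hq
      rw [Finset.mem_map]
      exact ⟨⟨q, hq.1⟩, hT ⟨q, hq.1⟩ hq.2.1, rfl⟩
    · intro i _
      simp
  rw [h, Finset.sum_map]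
  simp

theorem rat_formula {q : ℚ} (hq : q ≠ 0) (T : Finset Nat.Primes)
    (hT : ∀ p : Nat.Primes, ‖((q : ℚ) : ℚ_[(p : ℕ)])‖ ≠ 1 → p ∈ T) :
    Real.log |(q : ℝ)| + ∑ p ∈ T, Real.log ‖((q : ℚ) : ℚ_[(p : ℕ)])‖ = 0 := by
  classical
  have hnum : q.num.natAbs ≠ 0 := Int.natAbs_ne_zero.mpr (Rat.num_ne_zero.mpr hq)
  have hden : q.den ≠ 0 := q.den_ne_zero
  have hnorm : ∀ p : Nat.Primes, ‖((q : ℚ) : ℚ_[(p : ℕ)])‖ =
      ‖((q.num.natAbs : ℕ) : ℚ_[(p : ℕ)])‖ / ‖((q.den : ℕ) : ℚ_[(p : ℕ)])‖ := by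
    intro p
    rw [← norm_div]
    have h1 : ((q : ℚ) : ℚ_[(p : ℕ)]) = (q.num : ℚ_[(p : ℕ)]) / (q.den : ℚ_[(p : ℕ)]) := by
      conv_lhs => rw [← Rat.num_div_den q]
      push_cast
      rfl
    rw [h1, norm_div, norm_div]
    congr 1
    rcases Int.natAbs_eq q.num with h | h
    · conv_lhs => rw [h]
      rw [Int.cast_natCast]
    · conv_lhs => rw [h]
      rw [Int.cast_neg, Int.cast_natCast, norm_neg]
  have hT' : ∀ p : Nat.Primes, p ∉ T → ‖((q : ℚ) : ℚ_[(p : ℕ)])‖ = 1 := fun p hp =>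
    by_contra fun h => hp (hT p h)
  -- enlarge `T`
  let T' : Finset Nat.Primes := T ∪
    (Finset.univ.image fun x : {x // x ∈ (q.num.natAbs * q.den).primeFactors} =>
      (⟨x.1, Nat.prime_of_mem_primeFactors x.2⟩ : Nat.Primes))
  have hmem : ∀ p : Nat.Primes, (p : ℕ) ∣ q.num.natAbs * q.den → p ∈ T' := by
    intro p hp
    apply Finset.mem_union_right
    rw [Finset.mem_image]
    have h1 : (p : ℕ) ∈ (q.num.natAbs * q.den).primeFactors := by
      rw [Nat.mem_primeFactors]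
      exact ⟨p.2, hp, Nat.mul_ne_zero hnum hden⟩
    exact ⟨⟨(p : ℕ), h1⟩, Finset.mem_univ _, Subtype.ext rfl⟩
  have h1 := nat_formula hnum T' fun p hp => hmem p (Dvd.dvd.mul_right hp _)
  have h2 := nat_formula hden T' fun p hp => hmem p (Dvd.dvd.mul_left hp _)
  have h3 : ∑ p ∈ T, Real.log ‖((q : ℚ) : ℚ_[(p : ℕ)])‖ =
      ∑ p ∈ T', Real.log ‖((q : ℚ) : ℚ_[(p : ℕ)])‖ := by
    apply Finset.sum_subset Finset.subset_union_left
    intro p _ hp
    rw [hT' p hp, Real.log_one]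
  have h4 : ∀ p : Nat.Primes, Real.log ‖((q : ℚ) : ℚ_[(p : ℕ)])‖ =
      Real.log ‖((q.num.natAbs : ℕ) : ℚ_[(p : ℕ)])‖ -
        Real.log ‖((q.den : ℕ) : ℚ_[(p : ℕ)])‖ := by
    intro p
    rw [hnorm p, Real.log_div]
    · rw [norm_ne_zero_iff]
      exact_mod_cast hnum
    · rw [norm_ne_zero_iff]
      exact_mod_cast hden
  have h5 : |(q : ℝ)| = (q.num.natAbs : ℝ) / (q.den : ℝ) := by
    have e1 : (q : ℝ) = (q.num : ℝ) / (q.den : ℝ) := by
      conv_lhs => rw [← Rat.num_div_den q]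
      push_cast
      rfl
    rw [e1, abs_div, Nat.abs_cast, Nat.cast_natAbs, Int.cast_abs]
  rw [h3, Finset.sum_congr rfl fun p _ => h4 p, Finset.sum_sub_distrib, h5, Real.log_div
    (by exact_mod_cast hnum) (by exact_mod_cast hden)]
  linarith

/-! ## Integrality in ultrametric fields -/

theorem sum_lt {ι L : Type} [NormedField L] [IsUltrametricDist L] (s : Finset ι) (x : ι → L)
    {ε : ℝ} (hε : 0 < ε) (h : ∀ i ∈ s, ‖x i‖ < ε) : ‖∑ i ∈ s, x i‖ < ε := by
  classical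
  induction s using Finset.induction_on with
  | empty => simpa using hε
  | insert i s hi ih =>
    rw [Finset.sum_insert hi]
    exact (IsUltrametricDist.norm_add_le_max _ _).trans_lt
      (max_lt (h i (Finset.mem_insert_self i s)) (ih fun j hj => h j (Finset.mem_insert_of_mem hj)))

theorem norm_le_one_of_isIntegral {R L : Type} [CommRing R] [NormedField L] [IsUltrametricDist L]
    (τ : R →+* L) {x : R} (hx : IsIntegral ℤ x) : ‖τ x‖ ≤ 1 := by
  obtain ⟨P, hP, hPx⟩ := hx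
  by_contra hlt
  rw [not_le] at hlt
  have hx0 : 0 < ‖τ x‖ := by linarith
  have h0 : τ (Polynomial.eval₂ (algebraMap ℤ R) x P) = 0 := by rw [hPx, map_zero]
  have h1 : (τ x) ^ P.natDegree =
      - ∑ i ∈ Finset.range P.natDegree, ((P.coeff i : ℤ) : L) * (τ x) ^ i := by
    rw [Polynomial.eval₂_eq_sum_range, Finset.sum_range_succ, hP.coeff_natDegree] at h0
    simp only [eq_intCast, Int.cast_one, one_mul, map_add, map_sum, map_mul, map_pow,
      map_intCast] at h0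
    linear_combination h0
  have h2 : ‖τ x‖ ^ P.natDegree < ‖τ x‖ ^ P.natDegree := by
    calc ‖τ x‖ ^ P.natDegree = ‖(τ x) ^ P.natDegree‖ := (norm_pow _ _).symm
      _ = ‖∑ i ∈ Finset.range P.natDegree, ((P.coeff i : ℤ) : L) * (τ x) ^ i‖ := by
        rw [h1, norm_neg]
      _ < ‖τ x‖ ^ P.natDegree := by
        apply sum_lt _ _ (by positivity)
        intro i hi
        rw [norm_mul, norm_pow]
        calc ‖((P.coeff i : ℤ) : L)‖ * ‖τ x‖ ^ i ≤ 1 * ‖τ x‖ ^ i :=
              mul_le_mul_of_nonneg_right (IsUltrametricDist.norm_intCast_le_one L _)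
                (by positivity)
          _ = ‖τ x‖ ^ i := one_mul _
          _ < ‖τ x‖ ^ P.natDegree := pow_lt_pow_right₀ hlt (Finset.mem_range.mp hi)
  exact lt_irrefl _ h2

theorem norm_padic_natCast_eq (p : Nat.Primes) {n : ℕ} (h : ¬ (p : ℕ) ∣ n) :
    ‖((n : ℕ) : PadicAlgCl p)‖ = 1 := by
  have h1 : ((n : ℕ) : PadicAlgCl p) = (((n : ℕ) : ℚ_[(p : ℕ)]) : PadicAlgCl p) := by
    exact (map_natCast (algebraMap ℚ_[(p : ℕ)] (PadicAlgCl p)) n).symm
  rw [h1, PadicAlgCl.norm_extends]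
  exact (Padic.norm_natCast_eq_one_iff).mpr (((p.2.coprime_iff_not_dvd).mpr h))

/-- every algebraic number is integral for all embeddings at almost all primes -/
theorem exists_bound_le' (x : Qb) : ∃ M : ℕ, ∀ p : Nat.Primes, M < p →
    ∀ τ : Qb →+* PadicAlgCl p, ‖τ x‖ ≤ 1 := by
  have hx : IsAlgebraic ℤ x := by
    have : IsAlgebraic ℚ x := Algebra.IsAlgebraic.isAlgebraic x
    exact (IsFractionRing.isAlgebraic_iff ℤ ℚ (AlgebraicClosure ℚ)).mpr this
  obtain ⟨y, hy0, hy⟩ := hx.exists_integral_multiple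
  refine ⟨y.natAbs, fun p hp τ => ?_⟩
  have h1 : ‖τ (y • x)‖ ≤ 1 := norm_le_one_of_isIntegral τ hy
  have h2 : ‖τ (y : Qb)‖ = 1 := by
    have h3 : ¬ (p : ℕ) ∣ y.natAbs := fun h =>
      absurd (Nat.le_of_dvd (Int.natAbs_pos.mpr hy0) h) (by omega)
    have h4 := norm_padic_natCast_eq p h3
    rw [map_intCast]
    rcases Int.natAbs_eq y with h5 | h5
    · rw [h5, Int.cast_natCast]; exact h4
    · rw [h5, Int.cast_neg, Int.cast_natCast, norm_neg]; exact h4
  rw [zsmul_eq_mul, map_mul, norm_mul, h2, one_mul] at h1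
  exact h1

/-- a nonzero algebraic number is a unit for all embeddings at almost all primes -/
theorem exists_bound_eq' {x : Qb} (hx : x ≠ 0) : ∃ M : ℕ, ∀ p : Nat.Primes, M < p →
    ∀ τ : Qb →+* PadicAlgCl p, ‖τ x‖ = 1 := by
  obtain ⟨M₁, h₁⟩ := exists_bound_le' x
  obtain ⟨M₂, h₂⟩ := exists_bound_le' x⁻¹
  refine ⟨max M₁ M₂, fun p hp τ => ?_⟩
  have h3 := h₁ p (lt_of_le_of_lt (le_max_left _ _) hp) τ
  have h4 := h₂ p (lt_of_le_of_lt (le_max_right _ _) hp) τ
  rw [map_inv₀, norm_inv] at h4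
  have hpos : 0 < ‖τ x‖ := norm_pos_iff.mpr ((map_ne_zero τ).mpr hx)
  exact le_antisymm h3 ((inv_le_one₀ hpos).mp h4)

/-! ## Extensions of embeddings -/

theorem exists_ext (K : IntermediateField ℚ Qb) (E : Type) [Field E] [IsAlgClosed E]
    (σ : K →+* E) : ∃ τ : Qb →+* E, ∀ x : K, τ (x : Qb) = σ x := by
  let _ := σ.toAlgebra
  have : Algebra.IsAlgebraic K Qb := Algebra.IsAlgebraic.tower_top (K := ℚ) K
  refine ⟨(IsAlgClosed.lift (R := K) (S := Qb) (M := E)).toRingHom, fun x => ?_⟩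
  exact (IsAlgClosed.lift (R := K) (S := Qb) (M := E)).commutes x

/-- the absolute value of an embedding -/
noncomputable def absOf {E : Type} [NormedField E] (τ : Qb →+* E) : AbsoluteValue Qb ℝ where
  toFun x := ‖τ x‖
  map_mul' x y := by rw [map_mul, norm_mul]
  nonneg' x := norm_nonneg _
  eq_zero' x := by rw [norm_eq_zero, map_eq_zero]
  add_le' x y := by rw [map_add]; exact norm_add_le _ _

section family

variable (K : IntermediateField ℚ Qb)

/-- the index set -/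
abbrev Idx : Type := (K →ₐ[ℚ] ℂ) ⊕ (Σ p : Nat.Primes, K →ₐ[ℚ] PadicAlgCl p)

/-- the complex extension -/
noncomputable def extC (σ : K →ₐ[ℚ] ℂ) : Qb →+* ℂ := (exists_ext K ℂ σ.toRingHom).choose

theorem extC_spec (σ : K →ₐ[ℚ] ℂ) (x : K) : extC K σ (x : Qb) = σ x :=
  (exists_ext K ℂ σ.toRingHom).choose_spec x

/-- the `p`-adic extension -/
noncomputable def extP (p : Nat.Primes) (σ : K →ₐ[ℚ] PadicAlgCl p) : Qb →+* PadicAlgCl p :=
  (exists_ext K (PadicAlgCl p) σ.toRingHom).choose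

theorem extP_spec (p : Nat.Primes) (σ : K →ₐ[ℚ] PadicAlgCl p) (x : K) :
    extP K p σ (x : Qb) = σ x :=
  (exists_ext K (PadicAlgCl p) σ.toRingHom).choose_spec x

/-- the family of absolute values -/
noncomputable def av : Idx K → AbsoluteValue Qb ℝ
  | Sum.inl σ => absOf (extC K σ)
  | Sum.inr ⟨p, σ⟩ => absOf (extP K p σ)

theorem av_inl (σ : K →ₐ[ℚ] ℂ) (x : Qb) : av K (Sum.inl σ) x = ‖extC K σ x‖ := rfl

theorem av_inr (p : Nat.Primes) (σ : K →ₐ[ℚ] PadicAlgCl p) (x : Qb) :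
    av K (Sum.inr ⟨p, σ⟩) x = ‖extP K p σ x‖ := rfl

variable [FiniteDimensional ℚ K]

/-- primes up to a bound -/
noncomputable def primesLe (M : ℕ) : Finset Nat.Primes :=
  ((Finset.range (M + 1)).filter Nat.Prime).attach.map
    ⟨fun q => (⟨q.1, (Finset.mem_filter.mp q.2).2⟩ : Nat.Primes), fun a b h => by
      have h1 : ((⟨a.1, (Finset.mem_filter.mp a.2).2⟩ : Nat.Primes) : ℕ) =
        ((⟨b.1, (Finset.mem_filter.mp b.2).2⟩ : Nat.Primes) : ℕ) := congrArg Subtype.val h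
      exact Subtype.ext h1⟩

theorem not_mem_primesLe {M : ℕ} {p : Nat.Primes} (h : p ∉ primesLe M) : M < (p : ℕ) := by
  by_contra hle
  rw [not_lt] at hle
  apply h
  rw [primesLe, Finset.mem_map]
  exact ⟨⟨(p : ℕ), Finset.mem_filter.mpr ⟨Finset.mem_range.mpr (by omega), p.2⟩⟩,
    Finset.mem_attach _ _, Subtype.ext rfl⟩

/-- the finite set of indices where a number may be no unit -/
noncomputable def bad (M : ℕ) : Finset (Idx K) :=
  (Finset.univ : Finset (K →ₐ[ℚ] ℂ)).disjSum ((primesLe M).sigma fun _ => Finset.univ)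

theorem av_eq_one_of_not_mem {M : ℕ} {x : Qb}
    (hM : ∀ p : Nat.Primes, M < p → ∀ τ : Qb →+* PadicAlgCl p, ‖τ x‖ = 1)
    {i : Idx K} (hi : i ∉ bad K M) : av K i x = 1 := by
  rcases i with σ | ⟨p, σ⟩
  · exfalso
    apply hi
    rw [bad, Finset.inl_mem_disjSum]
    exact Finset.mem_univ _
  · rw [av_inr]
    apply hM
    apply not_mem_primesLe
    intro hp
    apply hi
    rw [bad, Finset.inr_mem_disjSum, Finset.mem_sigma]
    exact ⟨hp, Finset.mem_univ _⟩

theorem sum_embC (x : K) (hx : x ≠ 0) :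
    ∑ σ : K →ₐ[ℚ] ℂ, Real.log ‖σ x‖ = Real.log |((Algebra.norm ℚ x : ℚ) : ℝ)| := by
  rw [← Real.log_prod (fun σ _ => norm_ne_zero_iff.mpr ((map_ne_zero σ).mpr hx)), ← norm_prod,
    ← Algebra.norm_eq_prod_embeddings ℚ ℂ x]
  rw [eq_ratCast, Complex.norm_ratCast]

theorem sum_embP (p : Nat.Primes) (x : K) (hx : x ≠ 0) :
    ∑ σ : K →ₐ[ℚ] PadicAlgCl p, Real.log ‖σ x‖ =
      Real.log ‖((Algebra.norm ℚ x : ℚ) : ℚ_[(p : ℕ)])‖ := by
  rw [← Real.log_prod (fun σ _ => norm_ne_zero_iff.mpr ((map_ne_zero σ).mpr hx)), ← norm_prod,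
    ← Algebra.norm_eq_prod_embeddings ℚ (PadicAlgCl p) x]
  congr 1
  rw [← PadicAlgCl.norm_extends]
  congr 1

theorem norm_padic_eq (p : Nat.Primes) (x : K) :
    ‖((Algebra.norm ℚ x : ℚ) : ℚ_[(p : ℕ)])‖ = ∏ σ : K →ₐ[ℚ] PadicAlgCl p, ‖σ x‖ := by
  rw [← norm_prod, ← Algebra.norm_eq_prod_embeddings ℚ (PadicAlgCl p) x]
  rw [← PadicAlgCl.norm_extends]
  congr 1

theorem prod_formula (x : Qb) (hxK : x ∈ K) (hx : x ≠ 0) :
    ∑ᶠ i, Real.log (av K i x) = 0 := by
  classical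
  obtain ⟨M, hM⟩ := exists_bound_eq' hx
  have hx' : (⟨x, hxK⟩ : K) ≠ 0 := fun h => hx (congrArg Subtype.val h)
  rw [finsum_eq_sum_of_support_subset (s := bad K M)]
  · rw [bad, Finset.sum_disjSum, Finset.sum_sigma]
    have e1 : ∑ σ : K →ₐ[ℚ] ℂ, Real.log (av K (Sum.inl σ) x) =
        Real.log |((Algebra.norm ℚ (⟨x, hxK⟩ : K) : ℚ) : ℝ)| := by
      rw [← sum_embC K _ hx']
      apply Finset.sum_congr rfl
      intro σ _
      rw [av_inl, ← extC_spec]
    have e2 : ∀ p : Nat.Primes, ∑ σ : K →ₐ[ℚ] PadicAlgCl p,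
        Real.log (av K (Sum.inr ⟨p, σ⟩) x) =
        Real.log ‖((Algebra.norm ℚ (⟨x, hxK⟩ : K) : ℚ) : ℚ_[(p : ℕ)])‖ := by
      intro p
      rw [← sum_embP K p _ hx']
      apply Finset.sum_congr rfl
      intro σ _
      rw [av_inr, ← extP_spec]
    rw [e1, Finset.sum_congr rfl fun p _ => e2 p]
    apply rat_formula
    · exact (Algebra.norm_ne_zero_iff).mpr hx'
    · intro p hp
      by_contra hmem
      apply hp
      rw [norm_padic_eq]
      apply Finset.prod_eq_one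
      intro σ _
      rw [← extP_spec]
      exact hM p (not_mem_primesLe hmem) _
  · intro i hi
    by_contra hmem
    apply hi
    change Real.log (av K i x) = 0
    rw [av_eq_one_of_not_mem K hM hmem, Real.log_one]

/-- the family of absolute values with the product formula -/
noncomputable def fam : HFam K where
  ι := Idx K
  abv := av K
  arch := (Finset.univ : Finset (K →ₐ[ℚ] ℂ)).map ⟨Sum.inl, Sum.inl_injective⟩
  arch_nonempty := by
    rw [Finset.map_nonempty]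
    exact ⟨IsAlgClosed.lift, Finset.mem_univ _⟩
  na := by
    intro i hi a b
    rcases i with σ | ⟨p, σ⟩
    · exfalso
      apply hi
      rw [Finset.mem_map]
      exact ⟨σ, Finset.mem_univ _, rfl⟩
    · rw [av_inr, av_inr, av_inr, map_add]
      exact IsUltrametricDist.norm_add_le_max _ _
  finite := by
    intro x hx
    obtain ⟨M, hM⟩ := exists_bound_eq' hx
    refine (bad K M).finite_toSet.subset fun i hi => ?_
    by_contra hmem
    exact hi (av_eq_one_of_not_mem K hM hmem)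
  prod := prod_formula K
  arch_nat := by
    intro i hi n
    rw [Finset.mem_map] at hi
    obtain ⟨σ, -, rfl⟩ := hi
    change ‖extC K σ (n : Qb)‖ = n
    rw [map_natCast, Complex.norm_natCast]

end family

theorem pf_PFX : T_PFX := by
  intro K hK
  exact ⟨fam K⟩

end Pool.Agent.H50.ZA
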