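import Pool.Agent.H8.ZA.Targets

/-!
# Module UPZ: zeros of an element of `Vsp` on a plane curve
-/

open MvPolynomial

namespace Pool.Agent.H50.ZA

open Pool.Agent.H8.ZA

section quot

variable {L A B : Type} [Field L] [CommRing A] [CommRing B] [Algebra L A] [Algebra L B]

theorem quot_equiv (f : A →ₐ[L] B) (hf : Function.Surjective f) (I : Ideal A) (J : Ideal B)
    (h : I = J.comap f) : Nonempty ((A ⧸ I) ≃ₗ[L] (B ⧸ J)) := by
  subst h
  let g : A →ₐ[L] B ⧸ J := (Ideal.Quotient.mkₐ L J).comp f
  have hg : Function.Surjective g := (Ideal.Quotient.mkₐ_surjective L J).comp hf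
  have hker : J.comap f = RingHom.ker g := by
    ext x
    rw [Ideal.mem_comap, RingHom.mem_ker]
    change _ ↔ Ideal.Quotient.mk J (f x) = 0
    rw [Ideal.Quotient.eq_zero_iff_mem]
  exact ⟨((Ideal.quotientEquivAlgOfEq L hker).trans
    (Ideal.quotientKerAlgEquivOfSurjective hg)).toLinearEquiv⟩

theorem quot_equiv' (f : A →ₐ[L] B) (hf : Function.Surjective f) (k a b : A)
    (hk : ∀ q, f q = 0 ↔ k ∣ q) :
    Nonempty ((A ⧸ Ideal.span {k, a, b}) ≃ₗ[L] (B ⧸ Ideal.span {f a, f b})) := by
  apply quot_equiv f hf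
  have h1 : Ideal.span {f a, f b} = Ideal.map f (Ideal.span {a, b}) := by
    rw [Ideal.map_span, Set.image_pair]
  have h2 : Ideal.comap f (⊥ : Ideal B) = Ideal.span {k} := by
    ext x
    rw [Ideal.mem_comap, Ideal.mem_bot, hk, Ideal.mem_span_singleton]
  rw [h1, Ideal.comap_map_of_surjective f hf, h2, ← Ideal.span_union]
  congr 1
  ext x
  simp only [Set.mem_insert_iff, Set.mem_singleton_iff, Set.mem_union]
  tauto

end quot

section psi

variable {L : Type} [Field L] (c : L)

/-- restriction to `z_0 = c`, in the variables `τ = z_1` and `X = z_2` -/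
noncomputable def psi : Po L →ₐ[L] Polynomial (Polynomial L) :=
  aeval ![Polynomial.C (Polynomial.C c), Polynomial.C Polynomial.X, Polynomial.X]

theorem psi_X0 : psi c (X 0) = Polynomial.C (Polynomial.C c) := by
  rw [psi, aeval_X]; rfl

theorem psi_X1 : psi c (X 1) = Polynomial.C Polynomial.X := by
  rw [psi, aeval_X]; rfl

theorem psi_X2 : psi c (X 2) = Polynomial.X := by
  rw [psi, aeval_X]; rfl

theorem psi_C (a : L) : psi c (C a) = Polynomial.C (Polynomial.C a) := by
  rw [psi, aeval_C]
  rfl

/-- a section -/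
noncomputable def sec : Polynomial (Polynomial L) →+* Po L :=
  Polynomial.eval₂RingHom (Polynomial.eval₂RingHom (C : L →+* Po L) (X 1)) (X 2)

theorem psi_sec (Q : Polynomial (Polynomial L)) : psi c (sec Q) = Q := by
  have h : ((psi c : Po L →ₐ[L] _) : Po L →+* _).comp (sec (L := L)) = RingHom.id _ := by
    apply Polynomial.ringHom_ext'
    · apply Polynomial.ringHom_ext'
      · ext a
        simp [sec]
      · simp [sec, psi_X1]
    · simp [sec, psi_X2]
  exact DFunLike.congr_fun h Q

theorem psi_surjective : Function.Surjective (psi c) := fun Q => ⟨sec Q, psi_sec c Q⟩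

theorem psi_ker (q : Po L) : psi c q = 0 ↔ (X 0 - C c) ∣ q := by
  constructor
  · intro h
    let I : Ideal (Po L) := Ideal.span {X 0 - C c}
    have hh : ((Ideal.Quotient.mk I).comp (sec (L := L))).comp
        ((psi c : Po L →ₐ[L] _) : Po L →+* _) = Ideal.Quotient.mk I := by
      apply MvPolynomial.ringHom_ext
      · intro a
        simp [sec]
      · intro i
        fin_cases i
        · simp only [Fin.zero_eta, RingHom.comp_apply, RingHom.coe_coe, psi_X0]
          have h1 : sec (Polynomial.C (Polynomial.C c)) = (C c : Po L) := by simp [sec]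
          rw [h1, eq_comm, Ideal.Quotient.eq]
          exact Ideal.mem_span_singleton_self _
        · simp only [Fin.mk_one, RingHom.comp_apply, RingHom.coe_coe, psi_X1]
          have h1 : sec (Polynomial.C Polynomial.X) = (X 1 : Po L) := by simp [sec]
          rw [h1]
        · simp only [Fin.reduceFinMk, RingHom.comp_apply, RingHom.coe_coe, psi_X2]
          have h1 : sec Polynomial.X = (X 2 : Po L) := by simp [sec]
          rw [h1]
    have h2 := DFunLike.congr_fun hh q
    simp only [RingHom.comp_apply, RingHom.coe_coe, h, map_zero] at h2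
    rw [← Ideal.mem_span_singleton]
    exact Ideal.Quotient.eq_zero_iff_mem.mp h2.symm
  · rintro ⟨r, rfl⟩
    rw [map_mul, map_sub, psi_X0, psi_C, sub_self, zero_mul]

theorem psi_coeff (q : Po L) (j : ℕ) : (psi c q).coeff j =
    ∑ m ∈ q.support, if j = m 2 then
      Polynomial.C (coeff m q * c ^ m 0) * Polynomial.X ^ m 1 else 0 := by
  rw [psi, aeval_def, eval₂_eq, Polynomial.finsetSum_coeff]
  apply Finset.sum_congr rfl
  intro m _
  have h1 : ∏ i ∈ m.support, (![Polynomial.C (Polynomial.C c), Polynomial.C Polynomial.X,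
      Polynomial.X] : Fin 3 → Polynomial (Polynomial L)) i ^ m i =
      Polynomial.C (Polynomial.C c ^ m 0 * Polynomial.X ^ m 1) * Polynomial.X ^ m 2 := by
    rw [Finset.prod_subset (Finset.subset_univ m.support)]
    · rw [Fin.prod_univ_three]
      simp
    · intro i _ hi
      rw [Finsupp.notMem_support_iff.mp hi, pow_zero]
  rw [h1]
  have h2 : (algebraMap L (Polynomial (Polynomial L))) (coeff m q) =
    Polynomial.C (Polynomial.C (coeff m q)) := rfl
  rw [h2, ← mul_assoc, ← Polynomial.C_mul, Polynomial.coeff_C_mul_X_pow]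
  split_ifs
  · rw [Polynomial.C_mul, Polynomial.C_pow, mul_assoc]
  · rfl

theorem psi_coeff_natDegree {q : Po L} {d : ℕ} (hq : q.totalDegree ≤ d) (j : ℕ) :
    ((psi c q).coeff j).natDegree ≤ d := by
  rw [psi_coeff]
  apply Polynomial.natDegree_sum_le_of_forall_le
  intro m hm
  split_ifs
  · refine (Polynomial.natDegree_C_mul_X_pow_le _ _).trans ?_
    have h1 : (m.sum fun _ n => n) ≤ q.totalDegree := le_totalDegree hm
    have h2 : m 1 ≤ m.sum fun _ n => n := by
      rw [Finsupp.sum_fintype _ _ fun _ => rfl, Fin.sum_univ_three]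
      omega
    omega
  · simp

theorem psi_coeff_gt {q : Po L} {d : ℕ} (hq : q.totalDegree ≤ d) {j : ℕ} (hj : d < j) :
    (psi c q).coeff j = 0 := by
  rw [psi_coeff]
  apply Finset.sum_eq_zero
  intro m hm
  rw [if_neg]
  rintro rfl
  have h1 : (m.sum fun _ n => n) ≤ q.totalDegree := le_totalDegree hm
  have h2 : m 2 ≤ m.sum fun _ n => n := by
    rw [Finsupp.sum_fintype _ _ fun _ => rfl, Fin.sum_univ_three]
    omega
  omega

theorem psi_coeff_top {q : Po L} {d : ℕ} (hq : q.totalDegree ≤ d) :
    (psi c q).coeff d = Polynomial.C (coeff (Finsupp.single 2 d) q) := by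
  classical
  rw [psi_coeff]
  have h0 : ∀ m ∈ q.support, d = m 2 → m = Finsupp.single 2 d := by
    intro m hm h
    have h1 : (m.sum fun _ n => n) ≤ q.totalDegree := le_totalDegree hm
    rw [Finsupp.sum_fintype _ _ fun _ => rfl, Fin.sum_univ_three] at h1
    ext i
    fin_cases i
    · simp only [Fin.zero_eta]
      rw [Finsupp.single_eq_of_ne (by decide)]
      omega
    · simp only [Fin.mk_one]
      rw [Finsupp.single_eq_of_ne (by decide)]
      omega
    · simp only [Fin.reduceFinMk, Finsupp.single_eq_same]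
      omega
  by_cases hmem : Finsupp.single 2 d ∈ q.support
  · rw [Finset.sum_eq_single (Finsupp.single 2 d)]
    · rw [if_pos (by rw [Finsupp.single_eq_same])]
      have e0 : (Finsupp.single (2 : Fin 3) d) 0 = 0 := Finsupp.single_eq_of_ne (by decide)
      have e1 : (Finsupp.single (2 : Fin 3) d) 1 = 0 := Finsupp.single_eq_of_ne (by decide)
      rw [e0, e1, pow_zero, pow_zero, mul_one, mul_one]
    · intro m hm hne
      rw [if_neg]
      intro h
      exact hne (h0 m hm h)
    · intro h
      exact absurd hmem h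
  · rw [notMem_support_iff.mp hmem, Polynomial.C_0]
    apply Finset.sum_eq_zero
    intro m hm
    rw [if_neg]
    intro h
    rw [h0 m hm h] at hm
    exact hmem hm

theorem psi_Vsp (P : Po L) (k D l : ℕ) (s : Po L) (hs : s ∈ Vsp P k D l) :
    ∃ e : ℕ → ℕ → Polynomial L, (∀ a i, (e a i).natDegree ≤ l) ∧
      psi c s = ∑ a ∈ Finset.range (k + 1), ∑ i ∈ Finset.range D,
        (psi c P) ^ a * Polynomial.X ^ i * Polynomial.C (e a i) := by
  classical
  induction hs using Submodule.span_induction with
  | mem x hx =>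
    obtain ⟨a, i, b, c', ha, hi, hbc, rfl⟩ := hx
    refine ⟨fun a' i' => if a' = a ∧ i' = i then Polynomial.C (c ^ b) * Polynomial.X ^ c' else 0,
      ?_, ?_⟩
    · intro a' i'
      change (if a' = a ∧ i' = i then Polynomial.C (c ^ b) * Polynomial.X ^ c' else 0).natDegree ≤ l
      split_ifs
      · exact (Polynomial.natDegree_C_mul_X_pow_le _ _).trans (by omega)
      · simp
    · rw [Finset.sum_eq_single a, Finset.sum_eq_single i]
      · beta_reduce
        rw [if_pos ⟨rfl, rfl⟩, map_mul, map_mul, map_mul, map_pow, map_pow, map_pow, map_pow,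
          psi_X0, psi_X1, psi_X2, Polynomial.C_mul, Polynomial.C_pow, Polynomial.C_pow,
          Polynomial.C_pow]
      · intro i' _ hne
        beta_reduce
        rw [if_neg (by tauto), Polynomial.C_0, mul_zero]
      · intro h
        exact absurd (Finset.mem_range.mpr hi) h
      · intro a' _ hne
        apply Finset.sum_eq_zero
        intro i' _
        beta_reduce
        rw [if_neg (by tauto), Polynomial.C_0, mul_zero]
      · intro h
        exact absurd (Finset.mem_range.mpr (by omega)) h
  | zero =>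
    refine ⟨fun _ _ => 0, by simp, ?_⟩
    rw [map_zero]
    simp
  | add x y _ _ hx hy =>
    obtain ⟨e₁, h₁, h₁'⟩ := hx
    obtain ⟨e₂, h₂, h₂'⟩ := hy
    refine ⟨fun a i => e₁ a i + e₂ a i, fun a i => ?_, ?_⟩
    · exact (Polynomial.natDegree_add_le _ _).trans (max_le (h₁ a i) (h₂ a i))
    · rw [map_add, h₁', h₂', ← Finset.sum_add_distrib]
      apply Finset.sum_congr rfl
      intro a _
      rw [← Finset.sum_add_distrib]
      apply Finset.sum_congr rfl
      intro i _
      rw [Polynomial.C_add]
      ring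
  | smul r x _ hx =>
    obtain ⟨e₁, h₁, h₁'⟩ := hx
    refine ⟨fun a i => Polynomial.C r * e₁ a i, fun a i => ?_, ?_⟩
    · exact (Polynomial.natDegree_C_mul_le _ _).trans (h₁ a i)
    · rw [smul_eq_C_mul, map_mul, psi_C, h₁', Finset.mul_sum]
      apply Finset.sum_congr rfl
      intro a _
      rw [Finset.mul_sum]
      apply Finset.sum_congr rfl
      intro i _
      rw [Polynomial.C_mul]
      ring

end psi

theorem totalDegree_lin_le {L : Type} [Field L] (u : Fin 4 → L) : (lin u).totalDegree ≤ 1 := by
  unfold lin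
  refine (totalDegree_add _ _).trans (max_le ?_ ?_)
  · rw [totalDegree_C]; omega
  · refine (totalDegree_finsetSum _ _).trans (Finset.sup_le fun i _ => ?_)
    refine (totalDegree_mul _ _).trans ?_
    rw [totalDegree_C, totalDegree_X]

theorem totalDegree_pl_le {L : Type} [Field L] (u : Fin 4 → L) (i : Fin 3) :
    (pl u i).totalDegree ≤ 1 := by
  fin_cases i
  · change (X 0 : MvPolynomial (Fin 2) L).totalDegree ≤ 1
    rw [totalDegree_X]
  · change (X 1 : MvPolynomial (Fin 2) L).totalDegree ≤ 1
    rw [totalDegree_X]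
  · change (C (-(u 3)⁻¹) * (C (u 0) + C (u 1) * X 0 + C (u 2) * X 1) :
      MvPolynomial (Fin 2) L).totalDegree ≤ 1
    refine (totalDegree_mul _ _).trans ?_
    rw [totalDegree_C, zero_add]
    refine (totalDegree_add _ _).trans (max_le ((totalDegree_add _ _).trans (max_le ?_ ?_)) ?_)
    · rw [totalDegree_C]; omega
    · refine (totalDegree_mul _ _).trans ?_
      rw [totalDegree_C, totalDegree_X]
    · refine (totalDegree_mul _ _).trans ?_
      rw [totalDegree_C, totalDegree_X]

theorem pf_UPZ (hISO : T_ISO) (hBEZ : T_BEZ) (hCOP : T_COP) (hUPR : T_UPR) : T_UPZ := by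
  classical
  intro L _ _ Xt Zt p u d e k D l s c hinv hu hX hZ hp hcoeff hs hs0 hz0 hrel
  obtain ⟨hsurj, hker⟩ := hISO L Xt Zt u hinv hu
  set ell : Po L := aeval Xt (lin u) with hell
  have hcc : rho Zt u (C c) = C c := by
    rw [rho, aeval_C]
    rfl
  have hz : rho Zt u (X 0) - C c = rho Zt u (X 0 - C c) := by rw [map_sub, hcc]
  -- the comparison of quotients
  have hcomp : ∀ q : Po L, Nonempty
      ((MvPolynomial (Fin 2) L ⧸ Ideal.span {rho Zt u (X 0) - C c, rho Zt u q}) ≃ₗ[L]
      (Polynomial (Polynomial L) ⧸ Ideal.span {psi c ell, psi c q})) := by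
    intro q
    obtain ⟨e1⟩ := quot_equiv' (rho Zt u) hsurj ell (X 0 - C c) q hker
    obtain ⟨e2⟩ := quot_equiv' (psi c) (psi_surjective c) (X 0 - C c) ell q (psi_ker c)
    have h3 : Ideal.span {ell, X 0 - C c, q} = Ideal.span {X 0 - C c, ell, q} := by
      congr 1
      exact Set.insert_comm _ _ _
    rw [h3] at e1
    rw [hz]
    exact ⟨e1.symm.trans e2⟩
  -- the degree of ell
  have helld : ell.totalDegree ≤ d := by
    refine (totalDegree_aeval_le Xt d hX (lin u)).trans ?_
    calc (lin u).totalDegree * d ≤ 1 * d := Nat.mul_le_mul_right _ (totalDegree_lin_le u)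
      _ = d := one_mul d
  have htop := psi_coeff_top c helld
  have hTd : (psi c ell).natDegree = d := by
    apply le_antisymm
    · rw [Polynomial.natDegree_le_iff_coeff_eq_zero]
      intro j hj
      exact psi_coeff_gt c helld hj
    · apply Polynomial.le_natDegree_of_ne_zero
      rw [htop]
      exact fun h => hcoeff (Polynomial.C_eq_zero.mp h)
  have hlead : (psi c ell).leadingCoeff = Polynomial.C (coeff (Finsupp.single 2 d) ell) := by
    rw [Polynomial.leadingCoeff, hTd, htop]
  -- the element of Vsp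
  obtain ⟨ee, hee, hpsis⟩ := psi_Vsp c (aeval Xt p) k D l s hs
  have hfin := (hBEZ L _ _ hz0 hs0 hrel).1
  obtain ⟨e0⟩ := hcomp s
  have hfin' : Module.Finite L (Polynomial (Polynomial L) ⧸ Ideal.span {psi c ell, psi c s}) :=
    Module.Finite.equiv e0
  refine ⟨hfin, ?_⟩
  rw [e0.finrank_eq]
  -- infinitely many constants
  have hrp : rho Zt u (aeval Xt p) = aeval (pl u) p := by
    have h1 : (rho Zt u).comp (aeval Xt : Po L →ₐ[L] Po L) = aeval (pl u) := by
      apply algHom_ext
      intro i
      rw [AlgHom.comp_apply, aeval_X, aeval_X]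
      have h2 : rho Zt u (Xt i) = aeval (pl u) (aeval Zt (Xt i)) := by
        have h3 : rho Zt u = (aeval (pl u)).comp (aeval Zt : Po L →ₐ[L] Po L) := by
          apply algHom_ext
          intro j
          rw [AlgHom.comp_apply, aeval_X, rho, aeval_X]
        rw [h3]
        rfl
      rw [h2]
      have h4 : aeval Zt (Xt i) = X i := congrFun hinv.left i
      rw [h4, aeval_X]
    exact DFunLike.congr_fun h1 p
  have hinf : {c' : L | Module.finrank L (Polynomial (Polynomial L) ⧸
      Ideal.span {psi c ell, psi c (aeval Xt p) - Polynomial.C (Polynomial.C c')}) ≤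
        d * e}.Infinite := by
    have hf1 := hCOP L (aeval (pl u) p) (rho Zt u (X 0) - C c) hz0
    have hf2 : {c' : L | aeval (pl u) p - C c' = 0}.Finite := by
      apply Set.Subsingleton.finite
      intro a ha b hb
      have ha' : aeval (pl u) p = (C a : MvPolynomial (Fin 2) L) := sub_eq_zero.mp ha
      have hb' : aeval (pl u) p = (C b : MvPolynomial (Fin 2) L) := sub_eq_zero.mp hb
      exact C_injective _ _ (ha'.symm.trans hb')
    refine (hf1.union hf2).infinite_compl.mono ?_
    intro c' hc'
    simp only [Set.mem_compl_iff, Set.mem_union, Set.mem_ofPred_eq, not_or, not_not] at hc' ⊢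
    obtain ⟨hc1, hc2⟩ := hc'
    obtain ⟨e3⟩ := hcomp (aeval Xt p - C c')
    have h5 : psi c (aeval Xt p - C c') =
      psi c (aeval Xt p) - Polynomial.C (Polynomial.C c') := by rw [map_sub, psi_C]
    have h6 : rho Zt u (aeval Xt p - C c') = aeval (pl u) p - C c' := by
      rw [map_sub, hrp]
      congr 1
      rw [rho, aeval_C]
      rfl
    rw [h5, h6] at e3
    rw [← e3.finrank_eq]
    refine (hBEZ L _ _ hz0 hc2 hc1.symm).2.trans ?_
    rw [mul_comm d e]
    apply Nat.mul_le_mul
    · refine (totalDegree_sub _ _).trans (max_le ?_ ?_)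
      · have h7 : rho Zt u (X 0) = aeval (pl u) (Zt 0) := by rw [rho, aeval_X]
        rw [h7]
        refine (totalDegree_aeval_le (pl u) 1 (totalDegree_pl_le u) (Zt 0)).trans ?_
        rw [mul_one]
        exact hZ 0
      · rw [totalDegree_C]; omega
    · refine (totalDegree_sub _ _).trans (max_le ?_ ?_)
      · refine (totalDegree_aeval_le (pl u) 1 (totalDegree_pl_le u) p).trans ?_
        rw [mul_one]
        exact hp
      · rw [totalDegree_C]; omega
  rw [hpsis] at hfin' ⊢
  exact hUPR L (psi c ell) (psi c (aeval Xt p)) (coeff (Finsupp.single 2 d) ell) d (d * e) k D l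
    ee hcoeff hTd hlead (psi_coeff_natDegree c helld) hinf hee hfin'

end Pool.Agent.H50.ZA
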